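import Pool.Agent.H70.GSW.BVNc

/-!
# Theorem (G), row BVN: the difference of the optimal sum and of another sum
-/

set_option autoImplicit false

open Finset Pool.Agent.H6.N4D Pool.Agent.H93 Pool.Agent.H93.GS Pool.Agent.H6.GS2

namespace Pool.Agent.H70.GSW

lemma sum_three (K k : ℕ) (R : Finset ℕ) (hR : R ⊆ range K) (X1 X2 X3 : ℕ → ℝ) :
    ∑ t ∈ range (K + k), (if t < K then (if t ∈ R then X2 t else X1 t) else X3 (t - K)) =
      ∑ j ∈ range K \ R, X1 j + ∑ j ∈ R, X2 j + ∑ i ∈ range k, X3 i := by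
  rw [sum_range_add]
  congr 1
  · rw [← sum_sdiff hR]
    congr 1
    · apply sum_congr rfl
      intro j hj
      rw [mem_sdiff, mem_range] at hj
      rw [if_pos hj.1, if_neg hj.2]
    · apply sum_congr rfl
      intro j hj
      rw [if_pos (mem_range.1 (hR hj)), if_pos hj]
  · apply sum_congr rfl
    intro i _
    rw [if_neg (by omega), Nat.add_sub_cancel_left]

section
variable {lam : ℕ → ℝ} {N n : ℕ} {g G : Ex} {R : Finset ℕ} {ι : ℕ → ℕ}
  {s : ℕ → ℝ} {b : ℕ → ℤ}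

/-- the tests -/
lemma tx_diff (hT : T_BVT) (hl : ∀ m, |lam m| ≤ 1) (hD : Dec N g G R ι s b) {q : ℕ}
    (hq : 1 ≤ q) (hqN : q ≤ N) : ‖tx lam q N n g - tx lam q N n G‖ ≤
      ∑ j ∈ range G.k \ R, ‖G.c j‖ * zA lam q N n (G.a j) +
      ∑ j ∈ R, 7 * (‖G.c j‖ * |s j|) * zA lam q N n (g.a (ι j)) +
      ∑ i ∈ range g.k, ‖TT N n G R ι s i - g.c i‖ * zA lam q N n (g.a i) := by
  obtain ⟨E, hE⟩ : ∃ E : (ℕ → ℂ) → ℂ, E = fun F => ac 1 N n (fun m =>
    (EB.D q m : ℂ) * lam m * (starRingEnd ℂ) (F m)) := ⟨_, rfl⟩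
  have hadd : ∀ F H : ℕ → ℂ, E (fun m => F m + H m) = E F + E H := by
    intro F H
    rw [hE]
    show ac 1 N n _ = ac 1 N n _ + ac 1 N n _
    rw [← ac_add]
    apply ac_congr
    intro m _ _
    rw [map_add]; ring
  have hsum : ∀ (I : Finset ℕ) (F : ℕ → ℕ → ℂ), E (fun m => ∑ j ∈ I, F j m) =
      ∑ j ∈ I, E (F j) := by
    intro I F
    rw [hE]
    show ac 1 N n _ = ∑ j ∈ I, ac 1 N n _
    rw [← ac_sum]
    apply ac_congr
    intro m _ _
    rw [map_sum, mul_sum]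
  have h1 : tx lam q N n g - tx lam q N n G = -E (fun m => G.f m - g.f m) := by
    rw [hE]
    show tx lam q N n g - tx lam q N n G = -ac 1 N n _
    have e1 : tx lam q N n G - tx lam q N n g = ac 1 N n (fun m =>
        (EB.D q m : ℂ) * lam m * (starRingEnd ℂ) (G.f m - g.f m)) := by
      unfold tx
      rw [← ac_sub]
      apply ac_congr
      intro m _ _
      rw [map_sub]; ring
    rw [← e1]; ring
  have h2 : E (fun m => G.f m - g.f m) =
      (∑ j ∈ range G.k \ R, E (fun m => G.c j * ee (G.a j * m)) +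
      ∑ j ∈ R, E (fun m => G.c j * ee ((g.a (ι j) + s j / N) * m) -
        ctr N n (G.c j) (s j) * ee (g.a (ι j) * m))) +
      ∑ i ∈ range g.k, E (fun m => (TT N n G R ι s i - g.c i) * ee (g.a i * m)) := by
    rw [← hsum, ← hsum, ← hadd, ← hsum, ← hadd]
    congr 1
    funext m
    exact diff_eq n hD m
  rw [h1, norm_neg, h2]
  refine (norm_add_le _ _).trans (add_le_add ((norm_add_le _ _).trans (add_le_add ?_ ?_)) ?_)
  · refine (norm_sum_le _ _).trans (sum_le_sum fun j _ => ?_)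
    have h3 := hT lam q N n (G.a j) 0 (G.c j) 0 hl hq hqN
    rw [hE]
    simp only [zero_div, add_zero, zero_mul, sub_zero, ctr_norm, abs_zero, mul_zero] at h3
    exact h3
  · refine (norm_sum_le _ _).trans (sum_le_sum fun j _ => ?_)
    have h3 := hT lam q N n (g.a (ι j)) (s j) (G.c j) (ctr N n (G.c j) (s j)) hl hq hqN
    rw [hE]
    rw [sub_self, norm_zero, zero_add] at h3
    rw [show 7 * (‖G.c j‖ * |s j|) = 7 * ‖G.c j‖ * |s j| by ring]
    exact h3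
  · refine (norm_sum_le _ _).trans (sum_le_sum fun i _ => ?_)
    have h3 := hT lam q N n (g.a i) 0 (TT N n G R ι s i - g.c i) 0 hl hq hqN
    rw [hE]
    simp only [zero_div, add_zero, zero_mul, sub_zero, ctr_norm, abs_zero, mul_zero] at h3
    exact h3

end

theorem pf_BVN (hC : T_CUR) (hE : T_SEP) (hB : T_BNM) (hG : T_GEX) (hT : T_BVT) : T_BVN := by
  intro th A hth hth1 hA
  obtain ⟨Lam, hLd⟩ : ∃ Lam : ℝ, Lam = 2 + 40 / th ^ 2 := ⟨_, rfl⟩
  have p1 : 0 < 40 / th ^ 2 := by positivity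
  have hL1 : 1 ≤ Lam := by rw [hLd]; linarith
  have hL2 : 2 ≤ Lam := by rw [hLd]; linarith
  obtain ⟨P₁, C₁, κ₁, hP₁, hC₁, hκ₁, hκ₁', hC⟩ := hC th Lam hth hth1 hL1
  obtain ⟨P₂, C₂, κ₂, hP₂, hC₂, hκ₂, hκ₂', hE⟩ := hE th Lam hth hth1 hL1
  obtain ⟨x₀, hx₀⟩ : ∃ x₀ : ℝ, x₀ = √(2 * (A + 1 / th) ^ 2 + 4 * A) := ⟨_, rfl⟩
  obtain ⟨cν, hcν⟩ : ∃ cν : ℝ, cν = √(5 * A / (4 * th)) := ⟨_, rfl⟩
  have hx₀0 : 0 ≤ x₀ := by rw [hx₀]; exact Real.sqrt_nonneg _
  have hcν0 : 0 ≤ cν := by rw [hcν]; exact Real.sqrt_nonneg _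
  obtain ⟨D1, hD1⟩ : ∃ D1 : ℝ, D1 = 5 / th ^ 2 * (1 + 5 / (4 * th) * x₀ + 4 * cν) := ⟨_, rfl⟩
  obtain ⟨D2, hD2⟩ : ∃ D2 : ℝ, D2 = (2 + x₀) / th := ⟨_, rfl⟩
  have hD10 : 0 ≤ D1 := by rw [hD1]; positivity
  have hD20 : 0 ≤ D2 := by rw [hD2]; positivity
  refine ⟨max P₁ P₂, max C₁ C₂, min κ₁ κ₂, (4 * D1 + 3 * D2 + 7 * cν) ^ 2 + 1,
    hP₁.trans (le_max_left _ _), hC₁.trans (le_max_left _ _), lt_min hκ₁ hκ₂,
    (min_le_left _ _).trans hκ₁', by positivity, ?_⟩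
  intro lam P L n g G hl hL hP hg hgD hgap hA'
  obtain ⟨N, hNd⟩ : ∃ N : ℕ, N = P * L := ⟨_, rfl⟩
  have hgap1 : gapq th lam 1 P L n ≤ κ₁ ^ 2 := hgap.trans
    (pow_le_pow_left₀ (lt_min hκ₁ hκ₂).le (min_le_left _ _) 2)
  have hgap2 : gapq th lam 1 P L n ≤ κ₂ ^ 2 := hgap.trans
    (pow_le_pow_left₀ (lt_min hκ₁ hκ₂).le (min_le_right _ _) 2)
  have hN : 1 ≤ N := by
    have h1 : 1 ≤ P := (hP₁.trans (le_max_left _ _)).trans hP
    have h2 : 1 ≤ L := (hC₁.trans (le_max_left _ _)).trans hL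
    rw [hNd]; exact Nat.mul_pos h1 h2
  have hcur := hC lam 1 P L n g hl le_rfl (by rw [mul_one]; exact (le_max_left _ _).trans hL)
    ((le_max_left _ _).trans hP) hg hgap1
  obtain ⟨hsep, hk⟩ := hE lam 1 P L n g hl le_rfl
    (by rw [mul_one]; exact (le_max_right _ _).trans hL) ((le_max_right _ _).trans hP) hg hgD
    hgap2
  rw [← hNd] at hcur hsep hg ⊢
  have hCmp : Cmp lam th Lam N n g G := by
    refine ⟨hth, hN, hL2, hg, ?_, ?_⟩
    · intro i hi l hl' hne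
      have := hsep i hi l hl' hne
      rwa [Nat.cast_one, mul_one, one_mul] at this
    · intro i hi s b hs
      have := hcur i hi s b hs
      rwa [Nat.cast_one, div_one] at this
  obtain ⟨R, ι, s, b, hDec⟩ := exists_dec hN g G
  obtain ⟨hb1, -, hb3, hb4, -⟩ := hB th lam 1 N n g hth hl le_rfl hN hg
  have hN1 : ((1 : ℕ) : ℝ) / N ≤ 1 := by
    apply div_le_one_of_le₀ (by exact_mod_cast hN) (Nat.cast_nonneg _)
  have hgn : g.nm ≤ 1 / th := by
    rw [le_div_iff₀ hth]; linarith only [hb1, hN1]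
  have hR2 : ar 1 N n (fun m => ‖(lam m : ℂ) - g.f m‖ ^ 2) ≤ 2 := by linarith
  -- the defect
  have hJ := J_exp hg G
  rw [slk_eq] at hJ
  obtain ⟨D, hDd⟩ : ∃ D : ℝ, D = En th lam 1 N n - J th lam 1 N n G := ⟨_, rfl⟩
  have hd2 : 0 ≤ d2 1 N n G g := ar_nonneg _ _ _ fun m => by positivity
  have hsb : 0 ≤ sb th lam N n g G := sb_nonneg hg
  have hDe : D = d2 1 N n G g + 2 * sb th lam N n g G := by
    rw [hDd, hJ]; unfold sb; ring
  have hD0 : 0 ≤ D := by rw [hDe]; positivity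
  obtain ⟨x, hx⟩ : ∃ x : ℝ, x = √D := ⟨_, rfl⟩
  have hx0 : 0 ≤ x := by rw [hx]; exact Real.sqrt_nonneg _
  have hx2 : x ^ 2 = D := by rw [hx]; exact Real.sq_sqrt hD0
  have hxd : √(d2 1 N n G g) ≤ x := by
    rw [hx]; apply Real.sqrt_le_sqrt; linarith
  have hsx : sb th lam N n g G ≤ x ^ 2 / 2 := by linarith
  have hxx : x ≤ x₀ := by
    rw [hx, hx₀]
    apply Real.sqrt_le_sqrt
    have e1 : d2 1 N n G g ≤ 2 * (A + 1 / th) ^ 2 := by
      unfold d2
      calc ar 1 N n (fun m => ‖G.f m - g.f m‖ ^ 2) ≤ ar 1 N n (fun _ => (A + 1 / th) ^ 2 * 1) := by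
            apply ar_mono
            intro m _ _
            rw [mul_one]
            apply pow_le_pow_left₀ (norm_nonneg _)
            exact (norm_sub_le _ _).trans (add_le_add ((norm_f_le G m).trans hA')
              ((norm_f_le g m).trans hgn))
        _ = (A + 1 / th) ^ 2 := by rw [ar_mul, ar1_one N n hN, mul_one]
        _ ≤ 2 * (A + 1 / th) ^ 2 := by linarith only [sq_nonneg (A + 1 / th)]
    have e2 : sb th lam N n g G ≤ 2 * A := by
      have e3 : sb th lam N n g G ≤ ∑ j ∈ range G.k, 2 * ‖G.c j‖ := by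
        unfold sb
        apply sum_le_sum
        intro j _
        unfold sl
        have e4 := Complex.re_le_norm (-((starRingEnd ℂ) (G.c j) * rs lam 1 N n g (G.a j)))
        rw [norm_neg, norm_mul, Complex.norm_conj, Complex.neg_re] at e4
        have e5 := mul_le_mul_of_nonneg_left (hg.df (G.a j)) (norm_nonneg (G.c j))
        have e6 := norm_nonneg (G.c j)
        have e7 : th * ‖G.c j‖ ≤ 1 * ‖G.c j‖ := by gcongr
        linarith only [e4, e5, e6, e7]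
      rw [← mul_sum] at e3
      have e4 : ∑ j ∈ range G.k, ‖G.c j‖ ≤ A := hA'
      linarith
    linarith
  have hxx2 : x ^ 2 ≤ x₀ * x := by rw [sq]; exact mul_le_mul_of_nonneg_right hxx hx0
  -- the sums
  obtain ⟨T, hTd⟩ : ∃ T, T = ∑ i ∈ range g.k, ‖TT N n G R ι s i - g.c i‖ := ⟨_, rfl⟩
  obtain ⟨σ, hσd⟩ : ∃ σ, σ = ∑ j ∈ range G.k \ R, ‖G.c j‖ := ⟨_, rfl⟩
  obtain ⟨ν, hνd⟩ : ∃ ν, ν = ∑ j ∈ R, ‖G.c j‖ * |s j| := ⟨_, rfl⟩
  have hT0 : 0 ≤ T := by rw [hTd]; positivity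
  have hσ0 : 0 ≤ σ := by rw [hσd]; positivity
  have hν0 : 0 ≤ ν := by rw [hνd]; positivity
  have h1 := coefs_le hG hCmp hDec
  have h2 := sigma_le hDec (n := n)
  have h3 := nm_diff hg G hR2
  have h4 := nu_sq hCmp hDec
  rw [← hTd, ← hσd, ← hνd] at h1
  rw [← hTd, ← hσd] at h2
  rw [← hνd] at h4
  have hν : ν ≤ cν * x := by
    rw [hcν, hx, ← Real.sqrt_mul (by positivity)]
    apply Real.le_sqrt_of_sq_le
    refine h4.trans ?_
    calc G.nm * (5 / (2 * th) * sb th lam N n g G) ≤ A * (5 / (2 * th) * (D / 2)) := by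
          have : sb th lam N n g G ≤ D / 2 := by linarith
          have := nm_nonneg G
          gcongr
      _ = 5 * A / (4 * th) * D := by field_simp; ring
  have hK1 : (g.k : ℝ) * (√(d2 1 N n G g) + 5 / (2 * th) * sb th lam N n g G + 4 * ν) ≤
      D1 * x := by
    rw [hD1]
    have e1 : 5 / (2 * th) * sb th lam N n g G ≤ 5 / (4 * th) * x₀ * x := by
      calc 5 / (2 * th) * sb th lam N n g G ≤ 5 / (2 * th) * (x₀ * x / 2) := by
            gcongr; linarith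
        _ = 5 / (4 * th) * x₀ * x := by field_simp; ring
    have e2 : √(d2 1 N n G g) + 5 / (2 * th) * sb th lam N n g G + 4 * ν ≤
        (1 + 5 / (4 * th) * x₀ + 4 * cν) * x := by
      have e3 : (1 + 5 / (4 * th) * x₀ + 4 * cν) * x =
        x + 5 / (4 * th) * x₀ * x + 4 * (cν * x) := by ring
      linarith only [e3, e1, hν, hxd]
    calc _ ≤ 5 / th ^ 2 * ((1 + 5 / (4 * th) * x₀ + 4 * cν) * x) := by
          apply mul_le_mul hk e2 (by positivity) (by positivity)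
      _ = _ := by ring
  have hK2 : th * σ ≤ th * T + D2 * x * th := by
    have e1 : D2 * x * th = (2 + x₀) * x := by rw [hD2]; field_simp
    rw [e1]
    have e2 : sb th lam N n g G = ∑ j ∈ range G.k, sl th lam N n g G j := rfl
    rw [← e2] at h3
    have e3 : th * σ ≤ th * (T + (G.nm - g.nm)) := by gcongr
    rw [mul_add th T] at e3
    have e4 : (2 + x₀) * x = 2 * x + x₀ * x := by ring
    linarith only [e3, e4, h3, hxx2, hsx, hxd, hx0, hx₀0, mul_nonneg hx₀0 hx0]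
  obtain ⟨hT1, hσ1⟩ := numbers (K₁ := D1 * x) (K₂ := D2 * x) (k := g.k) hth hT0 hσ0
    (by linarith : 0 < Lam) (by
      rw [hLd]
      have : 16 * (g.k : ℝ) ≤ 16 * (5 / th ^ 2) := by gcongr
      have e1 : 16 * (5 / th ^ 2) = 2 * (40 / th ^ 2) := by ring
      linarith) h1 hK2 hK1 (by positivity) (by positivity)
  -- the result
  refine ⟨G.k + g.k, fun t => if t < G.k then (if t ∈ R then 7 * (‖G.c t‖ * |s t|) else ‖G.c t‖)
    else ‖TT N n G R ι s (t - G.k) - g.c (t - G.k)‖,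
    fun t => if t < G.k then (if t ∈ R then g.a (ι t) else G.a t) else g.a (t - G.k), ?_, ?_, ?_⟩
  · intro i
    beta_reduce
    split_ifs <;> positivity
  · rw [sum_three G.k g.k R hDec.sub (fun j => ‖G.c j‖) (fun j => 7 * (‖G.c j‖ * |s j|))
      (fun i => ‖TT N n G R ι s i - g.c i‖), ← mul_sum, ← hTd, ← hσd, ← hνd, ← hDd]
    have e1 : σ + 7 * ν + T ≤ (4 * D1 + 3 * D2 + 7 * cν) * x := by
      have e2 : (4 * D1 + 3 * D2 + 7 * cν) * x =
        4 * (D1 * x) + 3 * (D2 * x) + 7 * (cν * x) := by ring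
      linarith only [e2, hT1, hσ1, hν]
    calc (σ + 7 * ν + T) ^ 2 ≤ ((4 * D1 + 3 * D2 + 7 * cν) * x) ^ 2 := by
          apply pow_le_pow_left₀ (by positivity) e1
      _ = (4 * D1 + 3 * D2 + 7 * cν) ^ 2 * D := by rw [mul_pow, hx2]
      _ ≤ _ := by rw [add_mul, one_mul]; linarith only [hD0]
  · intro q hq hqN
    refine (tx_diff hT hl hDec hq hqN).trans (le_of_eq ?_)
    rw [← sum_three G.k g.k R hDec.sub (fun j => ‖G.c j‖ * zA lam q N n (G.a j))
      (fun j => 7 * (‖G.c j‖ * |s j|) * zA lam q N n (g.a (ι j)))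
      (fun i => ‖TT N n G R ι s i - g.c i‖ * zA lam q N n (g.a i))]
    apply sum_congr rfl
    intro t _
    beta_reduce
    by_cases ht : t < G.k
    · by_cases hR : t ∈ R
      · simp only [if_pos ht, if_pos hR]
      · simp only [if_pos ht, if_neg hR]
    · simp only [if_neg ht]

end Pool.Agent.H70.GSW
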