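import Pool.Agent.H6.GS2.Bas

/-!
# Theorem (G), row BVN: the difference of the optimal sum and of another sum, first part
-/

set_option autoImplicit false

open Finset Pool.Agent.H6.N4D Pool.Agent.H93 Pool.Agent.H93.GS Pool.Agent.H6.GS2

namespace Pool.Agent.H70.GSW

lemma fl1 (N n : ℕ) : (Ioc n (n + N)).filter (fun m => 1 ∣ m) = Ioc n (n + N) :=
  filter_true_of_mem fun m _ => one_dvd m

lemma ar1_one (N n : ℕ) (hN : 1 ≤ N) : ar 1 N n (fun _ => 1) = 1 := by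
  have h : (0 : ℝ) < N := by exact_mod_cast hN
  unfold ar
  rw [fl1, sum_const, Nat.card_Ioc, nsmul_eq_mul, Nat.add_sub_cancel_left]
  push_cast
  field_simp

lemma ac1_one (N n : ℕ) (hN : 1 ≤ N) : ac 1 N n (fun _ => 1) = 1 := by
  have h : (N : ℂ) ≠ 0 := by exact_mod_cast (by omega : N ≠ 0)
  unfold ac
  rw [fl1, sum_const, Nat.card_Ioc, nsmul_eq_mul, Nat.add_sub_cancel_left]
  push_cast
  field_simp

lemma norm_ac1_le (N n : ℕ) (hN : 1 ≤ N) (F : ℕ → ℂ) (B : ℝ)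
    (hF : ∀ m ∈ Ioc n (n + N), ‖F m‖ ≤ B) : ‖ac 1 N n F‖ ≤ B := by
  refine (norm_ac_le _ _ _ _).trans ?_
  calc ar 1 N n (fun m => ‖F m‖) ≤ ar 1 N n (fun _ => B * 1) :=
        ar_mono _ _ _ fun m hm _ => by rw [mul_one]; exact hF m hm
    _ = B := by rw [ar_mul, ar1_one N n hN, mul_one]

lemma ar1_cs (N n : ℕ) (F H : ℕ → ℝ) : (ar 1 N n (fun m => F m * H m)) ^ 2 ≤
    ar 1 N n (fun m => F m ^ 2) * ar 1 N n (fun m => H m ^ 2) := by
  unfold ar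
  have h := sum_mul_sq_le_sq_mul_sq ((Ioc n (n + N)).filter (fun m => 1 ∣ m)) F H
  have e : (∑ m ∈ (Ioc n (n + N)).filter (fun m => 1 ∣ m), F m ^ 2) * ((1 : ℕ) : ℝ) / N *
      ((∑ m ∈ (Ioc n (n + N)).filter (fun m => 1 ∣ m), H m ^ 2) * ((1 : ℕ) : ℝ) / N) =
      ((∑ m ∈ (Ioc n (n + N)).filter (fun m => 1 ∣ m), F m ^ 2) *
      ∑ m ∈ (Ioc n (n + N)).filter (fun m => 1 ∣ m), H m ^ 2) / (N : ℝ) ^ 2 := by
    push_cast; ring
  rw [e, div_pow, Nat.cast_one, mul_one]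
  gcongr

/-- the Cauchy-Schwarz inequality for averages -/
lemma norm_ac1_cs (N n : ℕ) (F H : ℕ → ℂ) : ‖ac 1 N n (fun m => F m * H m)‖ ≤
    √(ar 1 N n (fun m => ‖F m‖ ^ 2) * ar 1 N n (fun m => ‖H m‖ ^ 2)) := by
  refine (norm_ac_le _ _ _ _).trans ?_
  apply Real.le_sqrt_of_sq_le
  have := ar1_cs N n (fun m => ‖F m‖) (fun m => ‖H m‖)
  simpa only [norm_mul] using this

lemma ex_s {N : ℕ} (hN : 1 ≤ N) {x y c : ℝ} (h : nd (x - y) ≤ c / N) :
    ∃ (s : ℝ) (b : ℤ), |s| ≤ c ∧ x = y + b + s / N := by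
  have hN' : (0 : ℝ) < N := by exact_mod_cast hN
  refine ⟨N * (x - y - round (x - y)), round (x - y), ?_, ?_⟩
  · rw [abs_mul, abs_of_pos hN']
    have : |x - y - round (x - y)| ≤ c / N := h
    calc (N : ℝ) * |x - y - round (x - y)| ≤ N * (c / N) := by gcongr
      _ = c := by field_simp
  · field_simp
    ring

lemma ee_shift (x y : ℝ) (b : ℤ) (m : ℕ) (h : x = y + b) : ee (x * m) = ee (y * m) := by
  rw [h, show (y + b) * m = y * m + ((b * m : ℤ) : ℝ) by push_cast; ring, ee_add, ee_int,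
    mul_one]

lemma ctr_norm (N n : ℕ) (c : ℂ) (s : ℝ) : ‖ctr N n c s‖ = ‖c‖ := by
  unfold ctr; rw [norm_mul, norm_ee, mul_one]

/-- an exponential and the one at the centre -/
lemma ctr_diff {N n : ℕ} (hN : 1 ≤ N) (c : ℂ) (s γ : ℝ) (m : ℕ) (hm : m ∈ Ioc n (n + N)) :
    ‖c * ee ((γ + s / N) * m) - ctr N n c s * ee (γ * m)‖ ≤ 4 * (‖c‖ * |s|) := by
  have hN' : (0 : ℝ) < N := by exact_mod_cast hN
  rw [mem_Ioc] at hm
  unfold ctr
  have e1 : c * ee ((γ + s / N) * m) - c * ee (s / N * (n + (N : ℝ) / 2)) * ee (γ * m) =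
      c * ee (γ * m) * (ee (s / N * m) - ee (s / N * (n + (N : ℝ) / 2))) := by
    rw [show (γ + s / N) * m = γ * m + s / N * m by ring, ee_add]; ring
  rw [e1, norm_mul, norm_mul, norm_ee, mul_one]
  have e2 := norm_ee_sub_le (s / N * m) (s / N * (n + (N : ℝ) / 2))
  have e3 : nd (s / N * m - s / N * (n + (N : ℝ) / 2)) ≤ |s| / 2 := by
    refine (nd_le_abs _).trans ?_
    rw [← mul_sub, abs_mul, abs_div, abs_of_pos hN']
    have h1 : (n : ℝ) < m := by exact_mod_cast hm.1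
    have h2 : (m : ℝ) ≤ n + N := by exact_mod_cast hm.2
    have h3 : |(m : ℝ) - (n + (N : ℝ) / 2)| ≤ N / 2 := by
      rw [abs_le]; constructor <;> linarith
    calc |s| / N * |(m : ℝ) - (n + (N : ℝ) / 2)| ≤ |s| / N * (N / 2) := by gcongr
      _ = |s| / 2 := by field_simp
  have e4 := Real.pi_lt_d2
  have e5 : ‖ee (s / N * m) - ee (s / N * (n + (N : ℝ) / 2))‖ ≤ 4 * |s| := by
    refine e2.trans ?_
    calc 2 * Real.pi * nd (s / N * m - s / N * (n + (N : ℝ) / 2)) ≤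
          2 * Real.pi * (|s| / 2) := by gcongr
      _ = Real.pi * |s| := by ring
      _ ≤ 4 * |s| := by
        have := abs_nonneg s
        nlinarith
  calc _ ≤ ‖c‖ * (4 * |s|) := by gcongr
    _ = _ := by ring

/-- numbers -/
lemma numbers {th x K₁ K₂ k T σ ν Lam s : ℝ} (hth : 0 < th)
    (hT : 0 ≤ T) (hσ : 0 ≤ σ) (hLam : 0 < Lam) (hk : 16 * k ≤ 2 * Lam)
    (h1 : T ≤ k * (x + 5 / (2 * th) * s + 4 * ν) + k / (2 * Lam) * (σ + T))
    (h2 : th * σ ≤ th * T + K₂ * th)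
    (hK₁ : k * (x + 5 / (2 * th) * s + 4 * ν) ≤ K₁) (hK₂ : 0 ≤ K₂) (hK₁0 : 0 ≤ K₁) :
    T ≤ 2 * K₁ + K₂ ∧ σ ≤ 2 * K₁ + 2 * K₂ := by
  have h3 : σ ≤ T + K₂ := by
    have : th * σ ≤ th * (T + K₂) := by linarith
    exact le_of_mul_le_mul_left this hth
  have h4 : k / (2 * Lam) ≤ 1 / 16 := by
    rw [div_le_div_iff₀ (by positivity) (by norm_num)]
    linarith
  have h5 : k / (2 * Lam) * (σ + T) ≤ 1 / 16 * (σ + T) := by gcongr
  constructor <;> linarith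

end Pool.Agent.H70.GSW
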