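import Pool.Agent.H70.GSW.BVNa

/-!
# Theorem (G), row BVN: the difference of the optimal sum and of another sum, second part
-/

set_option autoImplicit false

open Finset Pool.Agent.H6.N4D Pool.Agent.H93 Pool.Agent.H93.GS Pool.Agent.H6.GS2

namespace Pool.Agent.H70.GSW

/-- the slack of one exponential -/
noncomputable def sl (th : ℝ) (lam : ℕ → ℝ) (N n : ℕ) (g G : Ex) (j : ℕ) : ℝ :=
  th * ‖G.c j‖ - ((starRingEnd ℂ) (G.c j) * rs lam 1 N n g (G.a j)).re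

lemma sl_ge {th : ℝ} {lam : ℕ → ℝ} {N n : ℕ} {g : Ex} (G : Ex) (j : ℕ) (u : ℝ)
    (h : ‖rs lam 1 N n g (G.a j)‖ ≤ th * (1 - u)) :
    th * u * ‖G.c j‖ ≤ sl th lam N n g G j := by
  unfold sl
  have h1 := Complex.re_le_norm ((starRingEnd ℂ) (G.c j) * rs lam 1 N n g (G.a j))
  rw [norm_mul, Complex.norm_conj] at h1
  have h2 := mul_le_mul_of_nonneg_left h (norm_nonneg (G.c j))
  nlinarith

lemma sl_nonneg {th : ℝ} {lam : ℕ → ℝ} {N n : ℕ} {g : Ex} (hg : Opt th lam 1 N n g) (G : Ex)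
    (j : ℕ) : 0 ≤ sl th lam N n g G j := by
  have := sl_ge G j 0 (by simpa using hg.df (G.a j))
  simpa using this

lemma slk_eq (th : ℝ) (lam : ℕ → ℝ) (N n : ℕ) (g G : Ex) :
    slk th lam 1 N n g G = 2 * ∑ j ∈ range G.k, sl th lam N n g G j := rfl

/-- the difference of the norms -/
lemma nm_diff {th : ℝ} {lam : ℕ → ℝ} {N n : ℕ} {g : Ex} (hg : Opt th lam 1 N n g)
    (G : Ex) (hR : ar 1 N n (fun m => ‖(lam m : ℂ) - g.f m‖ ^ 2) ≤ 2) :
    th * (G.nm - g.nm) ≤ 2 * √(d2 1 N n G g) + ∑ j ∈ range G.k, sl th lam N n g G j := by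
  have h1 : (ac 1 N n (fun m => ((lam m : ℂ) - g.f m) * (starRingEnd ℂ) (G.f m))).re =
      th * G.nm - ∑ j ∈ range G.k, sl th lam N n g G j := by
    rw [ac_conj, Complex.re_sum]
    unfold Ex.nm sl
    rw [sum_sub_distrib, mul_sum]
    unfold rs
    ring
  have h2 : (ac 1 N n (fun m => ((lam m : ℂ) - g.f m) * (starRingEnd ℂ) (g.f m))).re =
      th * g.nm := by
    rw [rs_self hg, ← Complex.ofReal_mul, Complex.ofReal_re]
  have h3 : ac 1 N n (fun m => ((lam m : ℂ) - g.f m) * (starRingEnd ℂ) (G.f m)) -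
      ac 1 N n (fun m => ((lam m : ℂ) - g.f m) * (starRingEnd ℂ) (g.f m)) =
      ac 1 N n (fun m => ((lam m : ℂ) - g.f m) * (starRingEnd ℂ) (G.f m - g.f m)) := by
    rw [← ac_sub]
    apply ac_congr
    intro m _ _
    rw [map_sub]; ring
  have h4 := norm_ac1_cs N n (fun m => (lam m : ℂ) - g.f m)
    (fun m => (starRingEnd ℂ) (G.f m - g.f m))
  rw [← h3] at h4
  have h5 := Complex.re_le_norm (ac 1 N n (fun m => ((lam m : ℂ) - g.f m) *
      (starRingEnd ℂ) (G.f m)) - ac 1 N n (fun m => ((lam m : ℂ) - g.f m) *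
      (starRingEnd ℂ) (g.f m)))
  rw [Complex.sub_re, h1, h2] at h5
  have h6 : √(ar 1 N n (fun m => ‖(lam m : ℂ) - g.f m‖ ^ 2) *
      ar 1 N n (fun m => ‖(starRingEnd ℂ) (G.f m - g.f m)‖ ^ 2)) ≤ 2 * √(d2 1 N n G g) := by
    have e1 : ar 1 N n (fun m => ‖(starRingEnd ℂ) (G.f m - g.f m)‖ ^ 2) = d2 1 N n G g := by
      unfold d2
      apply ar_congr
      intro m _ _
      rw [Complex.norm_conj]
    rw [e1]
    have e2 : 0 ≤ d2 1 N n G g := ar_nonneg _ _ _ fun m => by positivity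
    have e3 : (2 : ℝ) * √(d2 1 N n G g) = √(4 * d2 1 N n G g) := by
      rw [Real.sqrt_mul (by norm_num), show (4 : ℝ) = 2 ^ 2 by norm_num,
        Real.sqrt_sq (by norm_num)]
    rw [e3]
    apply Real.sqrt_le_sqrt
    nlinarith
  nlinarith

/-- the data of the comparison of `G` with the optimal sum `g` -/
structure Cmp (lam : ℕ → ℝ) (th Lam : ℝ) (N n : ℕ) (g G : Ex) : Prop where
  hth : 0 < th
  hN : 1 ≤ N
  hLam : 2 ≤ Lam
  hg : Opt th lam 1 N n g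
  sep : ∀ i < g.k, ∀ l < g.k, i ≠ l → Lam / N ≤ nd (g.a i - g.a l)
  cur : ∀ i < g.k, ∀ (s : ℝ) (b : ℤ), |s| ≤ Lam →
    ‖rs lam 1 N n g (g.a i + b + s / N)‖ ≤ th * (1 - 2 / 5 * min 1 (s ^ 2))

/-- a decomposition of `G`: the exponentials in `R` are near to frequencies of `g` -/
structure Dec (N : ℕ) (g G : Ex) (R : Finset ℕ) (ι : ℕ → ℕ) (s : ℕ → ℝ) (b : ℕ → ℤ) : Prop where
  sub : R ⊆ range G.k
  lt : ∀ j ∈ R, ι j < g.k
  le : ∀ j ∈ R, |s j| ≤ 1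
  eq : ∀ j ∈ R, G.a j = g.a (ι j) + b j + s j / N
  far : ∀ j ∈ range G.k \ R, ∀ i < g.k, 1 / (N : ℝ) < nd (G.a j - g.a i)

lemma exists_dec {N : ℕ} (hN : 1 ≤ N) (g G : Ex) : ∃ R ι s b, Dec N g G R ι s b := by
  classical
  have h : ∀ j : ℕ, ∃ (i : ℕ) (s : ℝ) (b : ℤ), (∃ i < g.k, nd (G.a j - g.a i) ≤ 1 / N) →
      i < g.k ∧ |s| ≤ 1 ∧ G.a j = g.a i + b + s / N := by
    intro j
    by_cases hj : ∃ i < g.k, nd (G.a j - g.a i) ≤ 1 / N
    · obtain ⟨i, hi, hni⟩ := hj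
      obtain ⟨s, b, h1, h2⟩ := ex_s hN hni
      exact ⟨i, s, b, fun _ => ⟨hi, h1, h2⟩⟩
    · exact ⟨0, 0, 0, fun h => absurd h hj⟩
  choose ι s b hh using h
  refine ⟨(range G.k).filter (fun j => ∃ i < g.k, nd (G.a j - g.a i) ≤ 1 / N), ι, s, b,
    filter_subset _ _, ?_, ?_, ?_, ?_⟩
  · intro j hj; exact (hh j (mem_filter.1 hj).2).1
  · intro j hj; exact (hh j (mem_filter.1 hj).2).2.1
  · intro j hj; exact (hh j (mem_filter.1 hj).2).2.2
  · intro j hj i hi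
    rw [mem_sdiff, mem_filter, not_and] at hj
    by_contra hcon
    push Not at hcon
    exact hj.2 hj.1 ⟨i, hi, hcon⟩

/-- the sum of the coefficients near the frequency `i` -/
noncomputable def TT (N n : ℕ) (G : Ex) (R : Finset ℕ) (ι : ℕ → ℕ) (s : ℕ → ℝ) (i : ℕ) : ℂ :=
  ∑ j ∈ R.filter (fun j => ι j = i), ctr N n (G.c j) (s j)

lemma sum_fib {N : ℕ} {g G : Ex} {R : Finset ℕ} {ι : ℕ → ℕ} {s : ℕ → ℝ} {b : ℕ → ℤ}
    (hD : Dec N g G R ι s b) {E : Type} [AddCommMonoid E] (F : ℕ → E) :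
    ∑ j ∈ R, F j = ∑ i ∈ range g.k, ∑ j ∈ R.filter (fun j => ι j = i), F j :=
  (sum_fiberwise_of_maps_to (fun j hj => mem_range.2 (hD.lt j hj)) _).symm

/-- the decomposition of the difference -/
lemma diff_eq {N : ℕ} (n : ℕ) {g G : Ex} {R : Finset ℕ} {ι : ℕ → ℕ} {s : ℕ → ℝ} {b : ℕ → ℤ}
    (hD : Dec N g G R ι s b) (m : ℕ) : G.f m - g.f m =
      ∑ j ∈ range G.k \ R, G.c j * ee (G.a j * m) +
      ∑ j ∈ R, (G.c j * ee ((g.a (ι j) + s j / N) * m) -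
        ctr N n (G.c j) (s j) * ee (g.a (ι j) * m)) +
      ∑ i ∈ range g.k, (TT N n G R ι s i - g.c i) * ee (g.a i * m) := by
  have h1 : G.f m = ∑ j ∈ range G.k \ R, G.c j * ee (G.a j * m) +
      ∑ j ∈ R, G.c j * ee (G.a j * m) := by
    unfold Ex.f
    rw [sum_sdiff hD.sub]
  have h2 : ∑ j ∈ R, G.c j * ee (G.a j * m) =
      ∑ j ∈ R, G.c j * ee ((g.a (ι j) + s j / N) * m) := by
    apply sum_congr rfl
    intro j hj
    rw [ee_shift (G.a j) (g.a (ι j) + s j / N) (b j) m (by rw [hD.eq j hj]; ring)]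
  have h3 : ∑ j ∈ R, ctr N n (G.c j) (s j) * ee (g.a (ι j) * m) =
      ∑ i ∈ range g.k, TT N n G R ι s i * ee (g.a i * m) := by
    rw [sum_fib hD]
    apply sum_congr rfl
    intro i _
    unfold TT
    rw [sum_mul]
    apply sum_congr rfl
    intro j hj
    rw [(mem_filter.1 hj).2]
  have h4 : g.f m = ∑ i ∈ range g.k, g.c i * ee (g.a i * m) := rfl
  rw [h1, h2, h4, sum_sub_distrib, h3]
  simp only [sub_mul]
  rw [sum_sub_distrib]
  ring

end Pool.Agent.H70.GSW
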