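import Pool.Agent.H70.GSW.BVNb

/-!
# Theorem (G), row BVN: the difference of the optimal sum and of another sum, third part
-/

set_option autoImplicit false

open Finset Pool.Agent.H6.N4D Pool.Agent.H93 Pool.Agent.H93.GS Pool.Agent.H6.GS2

namespace Pool.Agent.H70.GSW

lemma gex1 (hG : T_GEX) {N : ℕ} (n : ℕ) (hN : 1 ≤ N) {γ Lam : ℝ} (hL : 0 < Lam)
    (h : Lam / N ≤ nd γ) : ‖ac 1 N n (fun m => ee (γ * m))‖ ≤ 1 / (2 * Lam) := by
  have hN' : (0 : ℝ) < N := by exact_mod_cast hN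
  have h0 : 0 < nd γ := lt_of_lt_of_le (by positivity) h
  have h1 := hG 1 N n γ le_rfl hN (by rwa [Nat.cast_one, one_mul])
  rw [Nat.cast_one, one_mul] at h1
  refine h1.trans ?_
  apply one_div_le_one_div_of_le (by positivity)
  rw [div_le_iff₀ hN'] at h
  nlinarith

section
variable {lam : ℕ → ℝ} {th Lam : ℝ} {N n : ℕ} {g G : Ex} {R : Finset ℕ} {ι : ℕ → ℕ}
  {s : ℕ → ℝ} {b : ℕ → ℤ}

lemma far_le (hG : T_GEX) (hC : Cmp lam th Lam N n g G) (hD : Dec N g G R ι s b) {j i : ℕ}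
    (hj : j ∈ range G.k \ R) (hi : i < g.k) :
    ‖G.c j‖ * ‖ac 1 N n (fun m => ee ((G.a j - g.a i) * m))‖ ≤
      ‖G.c j‖ / (2 * Lam) + 5 / (2 * th) * sl th lam N n g G j := by
  have hN' : (0 : ℝ) < N := by exact_mod_cast hC.hN
  have hth := hC.hth
  have hL := hC.hLam
  have hs0 := sl_nonneg hC.hg G j
  by_cases h : Lam / N ≤ nd (G.a j - g.a i)
  · have h1 := gex1 hG n hC.hN (by linarith) h
    calc _ ≤ ‖G.c j‖ * (1 / (2 * Lam)) := by gcongr
      _ = ‖G.c j‖ / (2 * Lam) := by ring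
      _ ≤ _ := by
        have : 0 ≤ 5 / (2 * th) * sl th lam N n g G j := by positivity
        linarith
  · push Not at h
    obtain ⟨s', b', h1, h2⟩ := ex_s hC.hN h.le
    have h3 : 1 < |s'| := by
      by_contra hcon
      push Not at hcon
      have h4 := hD.far j hj i hi
      have h5 : nd (G.a j - g.a i) ≤ 1 / N := by
        rw [h2, show g.a i + b' + s' / N - g.a i = s' / N + b' by ring, nd_add_int]
        refine (nd_le_abs _).trans ?_
        rw [abs_div, abs_of_pos hN']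
        gcongr
      linarith
    have h4 := hC.cur i hi s' b' h1
    rw [← h2] at h4
    have h5 : min 1 (s' ^ 2) = 1 := by
      apply min_eq_left
      rw [← sq_abs]
      nlinarith
    rw [h5, mul_one] at h4
    have h6 := sl_ge G j (2 / 5) h4
    have h7 : ‖ac 1 N n (fun m => ee ((G.a j - g.a i) * m))‖ ≤ 1 :=
      norm_ac1_le N n hC.hN _ 1 fun m _ => (norm_ee _).le
    have h8 : ‖G.c j‖ ≤ 5 / (2 * th) * sl th lam N n g G j := by
      rw [div_mul_eq_mul_div, le_div_iff₀ (by positivity)]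
      linarith
    calc _ ≤ ‖G.c j‖ * 1 := by gcongr
      _ = ‖G.c j‖ := mul_one _
      _ ≤ _ := by
        have : 0 ≤ ‖G.c j‖ / (2 * Lam) := by positivity
        linarith

lemma near_le (hC : Cmp lam th Lam N n g G) (hD : Dec N g G R ι s b) {j : ℕ} (hj : j ∈ R) :
    ‖G.c j‖ * s j ^ 2 ≤ 5 / (2 * th) * sl th lam N n g G j := by
  have hth := hC.hth
  have h1 := hD.le j hj
  have h2 := hC.cur (ι j) (hD.lt j hj) (s j) (b j) (h1.trans (by linarith [hC.hLam]))
  rw [← hD.eq j hj] at h2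
  have h3 : min 1 (s j ^ 2) = s j ^ 2 := by
    apply min_eq_right
    rw [← sq_abs]
    have := abs_nonneg (s j)
    nlinarith
  rw [h3] at h2
  have h4 := sl_ge G j _ h2
  rw [div_mul_eq_mul_div, le_div_iff₀ (by positivity)]
  linarith

/-- the total slack -/
noncomputable def sb (th : ℝ) (lam : ℕ → ℝ) (N n : ℕ) (g G : Ex) : ℝ :=
  ∑ j ∈ range G.k, sl th lam N n g G j

lemma sb_nonneg (hg : Opt th lam 1 N n g) : 0 ≤ sb th lam N n g G :=
  sum_nonneg fun j _ => sl_nonneg hg G j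

lemma nu_sq (hC : Cmp lam th Lam N n g G) (hD : Dec N g G R ι s b) :
    (∑ j ∈ R, ‖G.c j‖ * |s j|) ^ 2 ≤ G.nm * (5 / (2 * th) * sb th lam N n g G) := by
  have hth := hC.hth
  have h1 := sum_sq_le_sum_mul_sum_of_sq_le_mul R (r := fun j => ‖G.c j‖ * |s j|)
    (f := fun j => ‖G.c j‖) (g := fun j => ‖G.c j‖ * s j ^ 2) (fun j _ => norm_nonneg _)
    (fun j _ => by positivity) (fun j _ => by
      show (‖G.c j‖ * |s j|) ^ 2 ≤ ‖G.c j‖ * (‖G.c j‖ * s j ^ 2)
      rw [mul_pow, sq_abs]; exact le_of_eq (by ring))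
  refine h1.trans ?_
  have h2 : ∑ j ∈ R, ‖G.c j‖ ≤ G.nm :=
    sum_le_sum_of_subset_of_nonneg hD.sub fun j _ _ => norm_nonneg _
  have h3 : ∑ j ∈ R, ‖G.c j‖ * s j ^ 2 ≤ 5 / (2 * th) * sb th lam N n g G := by
    unfold sb
    rw [mul_sum]
    refine (sum_le_sum fun j hj => near_le hC hD hj).trans ?_
    exact sum_le_sum_of_subset_of_nonneg hD.sub fun j _ _ =>
      mul_nonneg (by positivity) (sl_nonneg hC.hg G j)
  exact mul_le_mul h2 h3 (sum_nonneg fun j _ => by positivity) (nm_nonneg G)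

/-- one coefficient -/
lemma coef_le (hG : T_GEX) (hC : Cmp lam th Lam N n g G) (hD : Dec N g G R ι s b) {i : ℕ}
    (hi : i < g.k) : ‖TT N n G R ι s i - g.c i‖ ≤ √(d2 1 N n G g) +
      ∑ j ∈ range G.k \ R, (‖G.c j‖ / (2 * Lam) + 5 / (2 * th) * sl th lam N n g G j) +
      4 * ∑ j ∈ R, ‖G.c j‖ * |s j| +
      (∑ l ∈ range g.k, ‖TT N n G R ι s l - g.c l‖) / (2 * Lam) := by
  have hL := hC.hLam
  have hL0 : 0 < Lam := by linarith
  obtain ⟨V, hV⟩ : ∃ V : ℕ → ℂ, V = fun m : ℕ => ∑ j ∈ R, (G.c j * ee ((g.a (ι j) + s j / N) * m) -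
        ctr N n (G.c j) (s j) * ee (g.a (ι j) * m)) := ⟨_, rfl⟩
  obtain ⟨z, hz⟩ : ∃ z : ℕ → ℂ, z = fun l => TT N n G R ι s l - g.c l := ⟨_, rfl⟩
  -- the coefficient of the difference
  have h1 : ‖ac 1 N n (fun m => (G.f m - g.f m) * ee (-(g.a i * m)))‖ ≤ √(d2 1 N n G g) := by
    refine (norm_ac1_cs N n (fun m => G.f m - g.f m) (fun m => ee (-(g.a i * m)))).trans ?_
    apply Real.sqrt_le_sqrt
    have e1 : ar 1 N n (fun m => ‖ee (-(g.a i * m))‖ ^ 2) = 1 := by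
      rw [← ar1_one N n hC.hN]
      apply ar_congr
      intro m _ _
      rw [norm_ee]; norm_num
    rw [e1, mul_one]
    exact le_rfl
  have h2 : ac 1 N n (fun m => (G.f m - g.f m) * ee (-(g.a i * m))) =
      ∑ j ∈ range G.k \ R, G.c j * ac 1 N n (fun m => ee ((G.a j - g.a i) * m)) +
      ac 1 N n (fun m => V m * ee (-(g.a i * m))) +
      ∑ l ∈ range g.k, z l * ac 1 N n (fun m => ee ((g.a l - g.a i) * m)) := by
    have e1 : ∀ (c : ℂ) (x y : ℝ) (m : ℕ), c * ee (x * m) * ee (-(y * m)) =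
        c * ee ((x - y) * m) := by
      intro c x y m
      rw [mul_assoc, ← ee_add]
      congr 2
      ring
    have e2 : (fun m : ℕ => (G.f m - g.f m) * ee (-(g.a i * m))) = fun m : ℕ =>
        (∑ j ∈ range G.k \ R, G.c j * ee ((G.a j - g.a i) * m) + V m * ee (-(g.a i * m))) +
        ∑ l ∈ range g.k, z l * ee ((g.a l - g.a i) * m) := by
      funext m
      rw [diff_eq n hD m, add_mul, add_mul, sum_mul, sum_mul (range g.k), hV, hz]
      simp only [e1]
    rw [e2, ac_add, ac_add, ac_sum, ac_sum]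
    simp only [ac_mul]
  -- the near part
  have h3 : ‖ac 1 N n (fun m => V m * ee (-(g.a i * m)))‖ ≤ 4 * ∑ j ∈ R, ‖G.c j‖ * |s j| := by
    apply norm_ac1_le N n hC.hN
    intro m hm
    rw [norm_mul, norm_ee, mul_one, hV, mul_sum]
    refine (norm_sum_le _ _).trans (sum_le_sum fun j _ => ?_)
    exact ctr_diff hC.hN _ _ _ m hm
  -- the far part
  have h4 : ‖∑ j ∈ range G.k \ R, G.c j * ac 1 N n (fun m => ee ((G.a j - g.a i) * m))‖ ≤
      ∑ j ∈ range G.k \ R, (‖G.c j‖ / (2 * Lam) + 5 / (2 * th) * sl th lam N n g G j) := by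
    refine (norm_sum_le _ _).trans (sum_le_sum fun j hj => ?_)
    rw [norm_mul]
    exact far_le hG hC hD hj hi
  -- the other frequencies
  have h5 : ∑ l ∈ range g.k, z l * ac 1 N n (fun m => ee ((g.a l - g.a i) * m)) =
      z i + ∑ l ∈ (range g.k).erase i, z l * ac 1 N n (fun m => ee ((g.a l - g.a i) * m)) := by
    rw [← add_sum_erase _ _ (mem_range.2 hi)]
    congr 1
    have e1 : ac 1 N n (fun m => ee ((g.a i - g.a i) * m)) = 1 := by
      rw [← ac1_one N n hC.hN]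
      apply ac_congr
      intro m _ _
      rw [sub_self, zero_mul]
      simpa using ee_int 0
    rw [e1, mul_one]
  have h6 : ‖∑ l ∈ (range g.k).erase i, z l *
      ac 1 N n (fun m => ee ((g.a l - g.a i) * m))‖ ≤ (∑ l ∈ range g.k, ‖z l‖) / (2 * Lam) := by
    rw [sum_div]
    refine (norm_sum_le _ _).trans ?_
    refine le_trans (sum_le_sum (g := fun l => ‖z l‖ / (2 * Lam)) fun l hl => ?_)
      (sum_le_sum_of_subset_of_nonneg (erase_subset _ _) fun l _ _ => by positivity)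
    rw [mem_erase, mem_range] at hl
    have e1 := gex1 hG n hC.hN hL0 (hC.sep l hl.2 i hi hl.1)
    rw [norm_mul]
    calc ‖z l‖ * ‖ac 1 N n (fun m => ee ((g.a l - g.a i) * m))‖ ≤ ‖z l‖ * (1 / (2 * Lam)) := by
          gcongr
      _ = _ := by ring
  have h7 : z i = ac 1 N n (fun m => (G.f m - g.f m) * ee (-(g.a i * m))) -
      ∑ j ∈ range G.k \ R, G.c j * ac 1 N n (fun m => ee ((G.a j - g.a i) * m)) -
      ac 1 N n (fun m => V m * ee (-(g.a i * m))) -
      ∑ l ∈ (range g.k).erase i, z l * ac 1 N n (fun m => ee ((g.a l - g.a i) * m)) := by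
    rw [h2, h5]; ring
  have h8 : ‖z i‖ ≤ ‖ac 1 N n (fun m => (G.f m - g.f m) * ee (-(g.a i * m)))‖ +
      ‖∑ j ∈ range G.k \ R, G.c j * ac 1 N n (fun m => ee ((G.a j - g.a i) * m))‖ +
      ‖ac 1 N n (fun m => V m * ee (-(g.a i * m)))‖ +
      ‖∑ l ∈ (range g.k).erase i, z l * ac 1 N n (fun m => ee ((g.a l - g.a i) * m))‖ := by
    rw [h7]
    refine (norm_sub_le _ _).trans ?_
    gcongr
    refine (norm_sub_le _ _).trans ?_
    gcongr
    exact norm_sub_le _ _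
  have h9 : ∀ l, TT N n G R ι s l - g.c l = z l := by intro l; rw [hz]
  simp only [h9]
  linarith

/-- all coefficients -/
lemma coefs_le (hG : T_GEX) (hC : Cmp lam th Lam N n g G) (hD : Dec N g G R ι s b) :
    ∑ i ∈ range g.k, ‖TT N n G R ι s i - g.c i‖ ≤
      g.k * (√(d2 1 N n G g) + 5 / (2 * th) * sb th lam N n g G +
        4 * ∑ j ∈ R, ‖G.c j‖ * |s j|) +
      g.k / (2 * Lam) * (∑ j ∈ range G.k \ R, ‖G.c j‖ +
        ∑ i ∈ range g.k, ‖TT N n G R ι s i - g.c i‖) := by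
  have hth := hC.hth
  have h1 := sum_le_sum fun i (hi : i ∈ range g.k) => coef_le hG hC hD (mem_range.1 hi)
  rw [sum_const, card_range, nsmul_eq_mul] at h1
  refine h1.trans ?_
  have h2 : ∑ j ∈ range G.k \ R, (‖G.c j‖ / (2 * Lam) + 5 / (2 * th) * sl th lam N n g G j) ≤
      (∑ j ∈ range G.k \ R, ‖G.c j‖) / (2 * Lam) + 5 / (2 * th) * sb th lam N n g G := by
    rw [sum_add_distrib, ← sum_div, ← mul_sum]
    have e1 : ∑ j ∈ range G.k \ R, sl th lam N n g G j ≤ sb th lam N n g G :=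
      sum_le_sum_of_subset_of_nonneg sdiff_subset fun j _ _ => sl_nonneg hC.hg G j
    gcongr
  have h3 : (0 : ℝ) ≤ g.k := Nat.cast_nonneg _
  have h4 := mul_le_mul_of_nonneg_left h2 h3
  have e5 : (g.k : ℝ) / (2 * Lam) * (∑ j ∈ range G.k \ R, ‖G.c j‖ +
      ∑ i ∈ range g.k, ‖TT N n G R ι s i - g.c i‖) =
      g.k * ((∑ j ∈ range G.k \ R, ‖G.c j‖) / (2 * Lam)) + g.k *
        ((∑ i ∈ range g.k, ‖TT N n G R ι s i - g.c i‖) / (2 * Lam)) := by ring
  rw [e5]
  linarith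

/-- the far part and the norms -/
lemma sigma_le (hD : Dec N g G R ι s b) : ∑ j ∈ range G.k \ R, ‖G.c j‖ ≤
    ∑ i ∈ range g.k, ‖TT N n G R ι s i - g.c i‖ + (G.nm - g.nm) := by
  have h1 : G.nm = ∑ j ∈ range G.k \ R, ‖G.c j‖ + ∑ j ∈ R, ‖G.c j‖ := by
    unfold Ex.nm; rw [sum_sdiff hD.sub]
  have h2 : ∑ i ∈ range g.k, ‖TT N n G R ι s i‖ ≤ ∑ j ∈ R, ‖G.c j‖ := by
    rw [sum_fib hD]
    apply sum_le_sum
    intro i _
    unfold TT
    refine (norm_sum_le _ _).trans (le_of_eq ?_)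
    exact sum_congr rfl fun j _ => ctr_norm _ _ _ _
  have h3 : g.nm ≤ ∑ i ∈ range g.k, (‖TT N n G R ι s i‖ + ‖TT N n G R ι s i - g.c i‖) := by
    unfold Ex.nm
    apply sum_le_sum
    intro i _
    have := norm_sub_norm_le (g.c i) (TT N n G R ι s i)
    rw [norm_sub_rev (g.c i)] at this
    linarith
  rw [sum_add_distrib] at h3
  linarith

end

end Pool.Agent.H70.GSW
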